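import Mathlib
import Pool.Agent.Lib.H37M.Main
import Pool.Agent.Lib.H37M.LLBig

/-!
Partial answer to Q1 of MP_d69851_co: for every Mersenne prime `2 ^ p - 1` there is a
3-neighborly normal 3-pseudomanifold with exactly `2 ^ (p + 1)` vertices; in particular
(Lucas-Lehmer test for `p = 21701`, checked by the kernel) there is one with `2 ^ 21702` vertices;
and if there are infinitely many Mersenne primes then Q1 has the answer yes.

The construction. `F` is the field with `q = 2 ^ p` elements, `V = F x {0, 1}`. Put
`L(a, b) = a b` for nonzero `a, b` and `L(a, 0) = L(0, a) = a ^ 2`. White tetrahedra: four points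
of layer 0 with sum 0; four points of layer 1 whose inverses have sum 0 (the inverse of 0 is 0);
`(a,0), (b,0), (c,1), (d,1)` with `L(a,b) = L(c,d)`. Black tetrahedra: the images, under the swap
of the points `(0,0)` and `(0,1)`, of: four points of layer 0 whose inverses have sum 0; four
points of layer 1 with sum 0; `(a,0), (b,0), (c,1), (d,1)` with `L(c,d) = g ^ 2 L(a,b)`. Here
`g = z + 1/z` with `z` of order `q + 1` in the field with `q ^ 2` elements. Every triple lies in
one white and in one black tetrahedron, and the link of every pair is a single cycle.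
-/

namespace Pool.Agent.Results.MP_d69851_co.Mersenne

open H37M

theorem result :
    (∀ p : ℕ, (mersenne p).Prime → Exists3Nbly (2 ^ (p + 1))) ∧
    Exists3Nbly (2 ^ 21702) ∧
    ((∀ N : ℕ, ∃ p, N < p ∧ (mersenne p).Prime) → ∀ n : ℕ, ∃ m, n < m ∧ Exists3Nbly m) := by
  refine ⟨exists_of_mersenne, exists_of_mersenne 21701 mersenne_21701, ?_⟩
  intro h n
  obtain ⟨p, hp, hp'⟩ := h n
  refine ⟨2 ^ (p + 1), ?_, exists_of_mersenne p hp'⟩
  exact lt_trans (lt_trans hp (Nat.lt_succ_self p)) (Nat.lt_two_pow_self)

end Pool.Agent.Results.MP_d69851_co.Mersenne
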